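import Pool.Agent.P.MP_cd1425_an.Cl.Pos

/-! Jointly recurrent tuples for adjoint operators on separable dual spaces. -/

set_option autoImplicit false

open Filter Topology Function MeasureTheory Set Metric

namespace Pool.Agent.P.MP_cd1425_an.Qr

open Cl

universe u

theorem tuple {Y Ω : Type*} [PseudoMetricSpace Y] [TopologicalSpace.SeparableSpace Y] [Nonempty Y]
    [MeasurableSpace Ω] {S : Y → Y} {σ : Ω → Ω} {Φ : Y → Ω} (hΦ : Injective Φ)
    (hs : Semiconj Φ S σ) (hcl : ∀ z ρ, MeasurableSet (Φ '' closedBall z ρ)) {R : Set Y}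
    (hR : ∀ y, y ∈ R ↔ ∀ r > 0, ∃ μ : ProbabilityMeasure Ω, MeasurePreserving σ μ μ ∧
      (μ : Measure Ω) (Φ '' closedBall y r) ≠ 0)
    {ι : Type*} [Fintype ι] (c : ι → Y) (hc : ∀ i, c i ∈ R) {r : ℝ} (hr : 0 < r) :
    ∃ y : ι → Y, (∀ i, y i ∈ R ∧ dist (y i) (c i) ≤ r) ∧ ∀ ρ > 0, ∃ δ : ℝ, 0 < δ ∧
      ∀ N : ℕ, δ * N ≤ cnt {k | ∀ i, dist (S^[k] (y i)) (y i) ≤ ρ} 0 N := by
  choose μ hμ hμ' using fun i => (hR _).1 (hc i) r hr
  obtain ⟨d, hd⟩ := TopologicalSpace.exists_dense_seq Y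
  have hnull : ∀ᵐ ω ∂Measure.pi fun i => (μ i : Measure Ω), ∀ p : ι × ℕ × ℕ,
      (μ p.1 : Measure Ω) (Φ '' closedBall (d p.2.1) (1 / (p.2.2 + 1))) = 0 →
        ω p.1 ∉ Φ '' closedBall (d p.2.1) (1 / (p.2.2 + 1)) := by
    refine ae_all_iff.2 fun p => ?_
    by_cases h : (μ p.1 : Measure Ω) (Φ '' closedBall (d p.2.1) (1 / (p.2.2 + 1))) = 0
    · exact ((Measure.tendsto_eval_ae_ae (μ := fun i => (μ i : Measure Ω)) (i := p.1)).eventually
        (measure_eq_zero_iff_ae_notMem.1 h)).mono fun ω hω _ => hω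
    · exact .of_forall fun ω h' => (h h').elim
  obtain ⟨ω, h1, h2, h3⟩ := Measure.exists_mem_of_measure_ne_zero_of_ae
    (μ := Measure.pi fun i => (μ i : Measure Ω))
    (s := univ.pi fun i => Φ '' closedBall (c i) r)
    (by rw [Measure.pi_pi]; exact Finset.prod_ne_zero_iff.2 fun i _ => hμ' i)
    (ae_restrict_of_ae ((ae_all_iff.2 fun p : ℕ × (ι → ℕ) => ae_return
      (measurePreserving_pi _ _ hμ) (MeasurableSet.univ_pi fun i =>
        hcl (d (p.2 i)) (1 / (p.1 + 1)))).and hnull))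
  choose y hy hy' using fun i => h1 i trivial
  have near : ∀ ρ > (0 : ℝ), ∃ (m : ℕ) (z : ι → ℕ), ∀ i, y i ∈ closedBall (d (z i)) (1 / (m + 1)) ∧
      closedBall (d (z i)) (1 / (m + 1)) ⊆ closedBall (y i) ρ := fun ρ hρ => by
    obtain ⟨m, hm⟩ := exists_nat_one_div_lt (half_pos hρ)
    choose z hz using fun i => hd.exists_dist_lt (y i) (Nat.one_div_pos_of_nat (n := m))
    refine ⟨m, z, fun i => ⟨(hz i).le, fun w hw => mem_closedBall.2 ?_⟩⟩
    linarith [dist_triangle_right w (y i) (d (z i)), mem_closedBall.1 hw, hz i]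
  refine ⟨y, fun i => ⟨(hR _).2 fun ρ hρ => ⟨μ i, hμ i, fun h0 => ?_⟩, hy i⟩, fun ρ hρ => ?_⟩
  · obtain ⟨m, z, hz⟩ := near ρ hρ
    exact h3 (i, z i, m) (measure_mono_null (image_mono (hz i).2) h0) ⟨y i, (hz i).1, hy' i⟩
  obtain ⟨m, z, hz⟩ := near ρ hρ
  obtain ⟨δ, hδ, h4⟩ := h2 (m, z) fun i _ => ⟨y i, (hz i).1, hy' i⟩
  refine ⟨δ, hδ, fun N => (h4 N).trans (Nat.cast_le.2 (cnt_mono (fun k hk => ?_) 0 _))⟩
  intro i
  obtain ⟨w, w1, w2⟩ := hk i trivial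
  have e : Semiconj (fun (η : ι → Y) i => Φ (η i)) (fun η i => S (η i)) fun ω i => σ (ω i) :=
    fun η => funext fun i => hs (η i)
  have e2 : ∀ k (η : ι → Y), ((fun η i => S (η i))^[k] η) i = S^[k] (η i) := fun k => by
    induction k with
    | zero => exact fun _ => rfl
    | succ k ih => exact fun η => by rw [iterate_succ_apply, iterate_succ_apply, ih]
  rw [← funext hy', ← e.iterate_right k y] at w2
  rw [← e2, ← hΦ w2]
  exact (hz i).2 w1

variable {𝕜 : Type} [RCLike 𝕜]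

theorem frame {Z : Type*} [NormedAddCommGroup Z] [NormedSpace 𝕜 Z]
    [TopologicalSpace.SeparableSpace (StrongDual 𝕜 Z)] (A : Z →L[𝕜] Z)
    {S : StrongDual 𝕜 Z → StrongDual 𝕜 Z} (hS : ∀ ξ, S ξ = ξ ∘L A) :
    ∃ R : Set (StrongDual 𝕜 Z),
      (∀ y, (∀ r > 0, 0 < upperDensity (returnSet S y (closedBall y r))) → y ∈ R) ∧
      ∀ (ι : Type u) [Fintype ι] (c : ι → StrongDual 𝕜 Z), (∀ i, c i ∈ R) → ∀ r > (0 : ℝ),
        ∃ y : ι → StrongDual 𝕜 Z, (∀ i, y i ∈ R ∧ dist (y i) (c i) ≤ r) ∧ ∀ ρ > 0, ∃ δ : ℝ,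
          0 < δ ∧ ∀ N : ℕ, δ * N ≤ cnt {k | ∀ i, dist (S^[k] (y i)) (y i) ≤ ρ} 0 N := by
  obtain ⟨d, hd⟩ := TopologicalSpace.exists_dense_seq (StrongDual 𝕜 Z)
  have hφ : ∀ m, ∃ z : Z, ‖z‖ ≤ 1 ∧ ‖d m‖ / 2 ≤ ‖d m z‖ := fun m => by
    rcases (norm_nonneg (d m)).eq_or_lt with h | h
    · exact ⟨0, by simp, by simp [← h]⟩
    · obtain ⟨z, h1, h2⟩ := (d m).exists_lt_apply_of_lt_opNorm (half_lt_self h)
      exact ⟨z, h1.le, h2.le⟩
  choose φ hφ1 hφ2 using hφ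
  have hsep : ∀ x y : StrongDual 𝕜 Z, (∀ m, x (φ m) = y (φ m)) → x = y := fun x y h => by
    refine sub_eq_zero.1 (norm_le_zero_iff.1 (le_of_forall_pos_le_add fun ε hε => ?_))
    obtain ⟨m, hm⟩ := hd.exists_dist_lt (x - y) (show 0 < ε / 3 by positivity)
    rw [dist_eq_norm] at hm
    have h1 : d m (φ m) = -(x - y - d m) (φ m) := by simp [h m]
    have h2 := hφ2 m
    rw [h1, norm_neg] at h2
    have h3 := (x - y - d m).unit_le_opNorm _ (hφ1 m)
    have h4 := norm_add_le (x - y - d m) (d m)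
    rw [sub_add_cancel] at h4
    linarith
  obtain ⟨h, hc, hi⟩ : ∃ h : 𝕜 → closedBall (0 : 𝕜) 1, Continuous h ∧ Injective h :=
    ⟨inclusion ball_subset_closedBall ∘ Homeomorph.unitBall,
      (continuous_inclusion _).comp Homeomorph.unitBall.continuous,
      (inclusion_injective _).comp Homeomorph.unitBall.injective⟩
  let Φ : StrongDual 𝕜 Z → ℕ → ℕ → closedBall (0 : 𝕜) 1 := fun y k i => h (y ((A ^ k) (φ i)))
  let σ : (ℕ → ℕ → closedBall (0 : 𝕜) 1) → ℕ → ℕ → closedBall (0 : 𝕜) 1 := fun ω k => ω (k + 1)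
  have hσ : Continuous σ := by fun_prop
  have hΦ : Injective Φ := fun x y e => hsep x y fun i => hi (congrFun (congrFun e 0) i)
  have hs : Semiconj Φ S σ := fun y => by ext k i; simp only [Φ, σ, pow_succ', hS]; rfl
  have hcl : ∀ z ρ, IsClosed (Φ '' closedBall z ρ) := fun z ρ => by
    have hΨ : Continuous fun (ξ : WeakDual 𝕜 Z) (k : ℕ) (i : ℕ) =>
        h (ξ ((A ^ k) (φ i))) := continuous_pi fun k => continuous_pi fun i =>
      hc.comp (WeakDual.eval_continuous _)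
    exact ((WeakDual.isCompact_closedBall z ρ).image hΨ).isClosed
  clear_value Φ σ
  refine ⟨{y | ∀ r > 0, ∃ μ : ProbabilityMeasure (ℕ → ℕ → closedBall (0 : 𝕜) 1),
    MeasurePreserving σ μ μ ∧ (μ : Measure _) (Φ '' closedBall y r) ≠ 0}, fun y hy r hr => ?_,
    fun ι _ c hc r hr => tuple hΦ hs (fun z ρ => (hcl z ρ).measurableSet) (fun _ => Iff.rfl) c hc hr⟩
  exact exists_invariant hσ (Φ y) (hcl y r) (A := returnSet S y (closedBall y r))
    (fun k hk => ⟨_, hk, hs.iterate_right k _⟩) (hy r hr)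

theorem stable {Q ι : Type*} [NormedAddCommGroup Q] [NormedSpace 𝕜 Q] [Fintype ι] {v : ι → Q}
    (hv : LinearIndependent 𝕜 v) : ∃ C δ : ℝ, 0 < C ∧ 0 < δ ∧ ∀ w : ι → Q,
      (∀ i, ‖w i - v i‖ ≤ δ) → ∀ a : ι → 𝕜, ‖a‖ ≤ C * ‖∑ i, a i • w i‖ := by
  obtain ⟨K, hK, h⟩ := (Fintype.linearCombination 𝕜 v).exists_antilipschitzWith
    (LinearMap.ker_eq_bot'.2 fun a ha => funext (Fintype.linearIndependent_iff.1 hv a
      (by simpa [Fintype.linearCombination_apply] using ha)))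
  have hK' : (0 : ℝ) < K := hK
  have hn : (0 : ℝ) ≤ Fintype.card ι := Nat.cast_nonneg _
  refine ⟨2 * K, 1 / (2 * K * (Fintype.card ι + 1)), by positivity, by positivity,
    fun w hw a => ?_⟩
  have h1 : ‖a‖ ≤ K * ‖∑ i, a i • v i‖ := by
    simpa [Fintype.linearCombination_apply] using ZeroHomClass.bound_of_antilipschitz _ h a
  have h2 : ‖∑ i, a i • (w i - v i)‖ ≤
      Fintype.card ι * (‖a‖ * (1 / (2 * K * (Fintype.card ι + 1)))) := by
    refine (norm_sum_le _ _).trans ?_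
    have := Finset.sum_le_card_nsmul Finset.univ (fun i => ‖a i • (w i - v i)‖)
      (‖a‖ * (1 / (2 * K * (Fintype.card ι + 1)))) fun i _ => by
        rw [norm_smul]
        exact mul_le_mul (norm_le_pi_norm a i) (hw i) (norm_nonneg _) (norm_nonneg _)
    simpa using this
  have h3 : ‖∑ i, a i • v i‖ ≤ ‖∑ i, a i • w i‖ + ‖∑ i, a i • (w i - v i)‖ := by
    refine le_trans (le_of_eq ?_) (norm_sub_le _ _)
    simp [smul_sub, Finset.sum_sub_distrib]
  have h4 : K * (Fintype.card ι * (‖a‖ * (1 / (2 * K * (Fintype.card ι + 1))))) ≤ ‖a‖ / 2 := by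
    have e : K * (Fintype.card ι * (‖a‖ * (1 / (2 * K * (Fintype.card ι + 1))))) =
        ‖a‖ / 2 * (Fintype.card ι / (Fintype.card ι + 1 : ℝ)) := by field_simp
    rw [e]
    exact mul_le_of_le_one_right (by positivity) ((div_le_one (by positivity)).2 (by linarith))
  nlinarith [mul_le_mul_of_nonneg_left (h3.trans (add_le_add_right h2 _)) hK'.le]

end Pool.Agent.P.MP_cd1425_an.Qr
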