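import Pool.Agent.P.MP_cd1425_an.Qr.Frame

/-! Direct sums of recurrent operators on quasi-reflexive spaces. -/

set_option autoImplicit false

open Filter Topology Function MeasureTheory Set Metric

namespace Pool.Agent.P.MP_cd1425_an.Qr

universe u

variable {𝕜 : Type} [RCLike 𝕜]

theorem separable_of_fin {X Y : Type*} [NormedAddCommGroup X] [NormedAddCommGroup Y]
    [NormedSpace 𝕜 Y] [TopologicalSpace.SeparableSpace X] {J : X → Y} (hJ : Continuous J)
    {s : Finset Y} (h : ∀ y, ∃ x, y - J x ∈ Submodule.span 𝕜 (s : Set Y)) :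
    TopologicalSpace.SeparableSpace Y := by
  rw [← TopologicalSpace.isSeparable_univ_iff]
  refine ((TopologicalSpace.isSeparable_range hJ).union
    s.finite_toSet.isSeparable).span (R := 𝕜) |>.mono fun y _ => ?_
  obtain ⟨x, hx⟩ := h y
  rw [← sub_add_cancel y (J x)]
  exact add_mem (Submodule.span_mono subset_union_right hx)
    (Submodule.subset_span (Or.inl ⟨x, rfl⟩))

theorem descend {X : Type*} {Y : Type u} [NormedAddCommGroup X] [NormedSpace 𝕜 X] [CompleteSpace X]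
    [NormedAddCommGroup Y] [NormedSpace 𝕜 Y] (J : X →ₗᵢ[𝕜] Y)
    {s : Finset Y} (h : ∀ y, ∃ x, y - J x ∈ Submodule.span 𝕜 (s : Set Y))
    {T : X → X} (S : Y →ₗ[𝕜] Y)
    (hs : Semiconj J T S) {R : Set Y}
    (h1 : ∀ y, (∀ r > 0, 0 < upperDensity (returnSet S y (closedBall y r))) → y ∈ R)
    (h2 : ∀ (ι : Type u) [Fintype ι] (c : ι → Y), (∀ i, c i ∈ R) → ∀ r > (0 : ℝ),
      ∃ y : ι → Y, (∀ i, y i ∈ R ∧ dist (y i) (c i) ≤ r) ∧ ∀ ρ > 0, ∃ δ : ℝ,
        0 < δ ∧ ∀ N : ℕ, δ * N ≤ cnt {k | ∀ i, dist (S^[k] (y i)) (y i) ≤ ρ} 0 N)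
    {n : ℕ} (x : Fin n → X)
    (hx : ∀ i, ∀ r > 0, 0 < upperDensity (returnSet T (x i) (closedBall (x i) r))) {ε : ℝ}
    (hε : 0 < ε) : ∃ η ∈ recVectors (fun A => 0 < lowerDensity A) (directSum n T),
      ∀ i, dist (η i) (x i) ≤ ε := by
  set N := LinearMap.range J.toLinearMap with hN
  have : IsClosed (N : Set Y) := J.isometry.isClosedEmbedding.isClosed_range
  have : FiniteDimensional 𝕜 (Y ⧸ N) := by
    refine Module.finite_def.2 (Submodule.fg_def.2 ⟨N.mkQ '' s, s.finite_toSet.image _, ?_⟩)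
    rw [← Submodule.map_span, Submodule.map_mkQ_eq_top, eq_top_iff]
    intro y _
    obtain ⟨x, hx⟩ := h y
    rw [← add_sub_cancel (J x) y]
    exact Submodule.add_mem_sup ⟨x, rfl⟩ hx
  have hπ : ∀ (y : Y) (x : X), ‖N.mkQ y‖ ≤ dist y (J x) := fun y x => by
    have : N.mkQ y = N.mkQ (y - J x) := by
      rw [map_sub, show N.mkQ (J x) = 0 from (Submodule.Quotient.mk_eq_zero N).2 ⟨x, rfl⟩, sub_zero]
    rw [this, dist_eq_norm]
    exact Submodule.Quotient.norm_mk_le N _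
  obtain ⟨b, hb1, hb2, hb3⟩ := exists_linearIndependent 𝕜 (N.mkQ '' R)
  have := hb3.setFinite.fintype
  choose c hc hc' using fun j : b => hb1 j.2
  obtain ⟨C, δ, hC, hδ, hst⟩ := stable hb3
  have hxR : ∀ i, J (x i) ∈ R := fun i => h1 _ fun r hr => by
    have : returnSet S (J (x i)) (closedBall (J (x i)) r) =
        returnSet T (x i) (closedBall (x i) r) := by
      ext k
      simp only [returnSet, mem_ofPred_eq, mem_closedBall, ← hs.iterate_right k _, J.dist_map]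
    exact this ▸ hx i r hr
  set m : ℝ := (Fintype.card b : ℝ)
  have hm : 0 ≤ m := Nat.cast_nonneg _
  set B : ℝ := 1 + m * (C * (‖c‖ + 1)) with hB
  have hB0 : 0 < B := by positivity
  obtain ⟨r, r0, r1, r2, r3⟩ : ∃ r : ℝ, 0 < r ∧ r ≤ δ ∧ r ≤ 1 ∧ r ≤ ε / B :=
    ⟨min δ (min 1 (ε / B)), by positivity, min_le_left _ _,
      (min_le_right _ _).trans (min_le_left _ _), (min_le_right _ _).trans (min_le_right _ _)⟩
  obtain ⟨y, hy, hrec⟩ := h2 (Fin n ⊕ b) (Sum.elim (fun i => J (x i)) c)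
    (by rintro (i | j); exacts [hxR i, hc j]) r r0
  let w : b → Y ⧸ N := fun j => N.mkQ (y (.inr j))
  have hw := hst w fun j => by
    rw [← hc' j, ← map_sub]
    exact (Submodule.Quotient.norm_mk_le N _).trans
      ((dist_eq_norm _ _).symm.trans_le ((hy (.inr j)).2.trans r1))
  have hli : LinearIndependent 𝕜 w := Fintype.linearIndependent_iff.2 fun a ha => by
    have := hw a
    rw [ha, norm_zero, mul_zero, norm_le_zero_iff] at this
    exact congrFun this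
  have hsp : Submodule.span 𝕜 (range w) = Submodule.span 𝕜 (N.mkQ '' R) := by
    refine Submodule.eq_of_le_of_finrank_eq (Submodule.span_mono ?_) ?_
    · rintro _ ⟨j, rfl⟩
      exact ⟨_, (hy _).1, rfl⟩
    · rw [finrank_span_eq_card hli, ← hb2, ← finrank_span_eq_card hb3, Subtype.range_coe]
  have hex : ∀ i, ∃ (a : b → 𝕜) (η : X), ‖a‖ ≤ C * r ∧
      J η = y (.inl i) - ∑ j, a j • y (.inr j) := fun i => by
    have : N.mkQ (y (.inl i)) ∈ Submodule.span 𝕜 (range w) :=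
      hsp ▸ Submodule.subset_span ⟨_, (hy _).1, rfl⟩
    obtain ⟨a, ha⟩ := (Submodule.mem_span_range_iff_exists_fun 𝕜).1 this
    obtain ⟨η, hη⟩ : y (.inl i) - ∑ j, a j • y (.inr j) ∈ N := by
      rw [← Submodule.Quotient.mk_eq_zero, ← N.mkQ_apply, map_sub, ← ha]
      simp [w]
    refine ⟨a, η, (hw a).trans ?_, hη⟩
    rw [ha]
    exact mul_le_mul_of_nonneg_left ((hπ _ (x i)).trans (hy (.inl i)).2) hC.le
  choose a η ha hη using hex
  have hsum : ∀ i (v : b → Y) (ρ : ℝ), (∀ j, ‖v j‖ ≤ ρ) →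
      ‖∑ j, a i j • v j‖ ≤ m * (C * r * ρ) := fun i v ρ hv => by
    refine (norm_sum_le _ _).trans ?_
    have := Finset.sum_le_card_nsmul Finset.univ (fun j => ‖a i j • v j‖) (C * r * ρ) fun j _ => by
      rw [norm_smul]
      exact mul_le_mul ((norm_le_pi_norm _ j).trans (ha i)) (hv j) (norm_nonneg _) (by positivity)
    rwa [Finset.card_univ, nsmul_eq_mul] at this
  refine ⟨η, fun U hU => ?_, fun i => ?_⟩
  · obtain ⟨ρ, hρ, hU⟩ := nhds_basis_closedBall.mem_iff.1 hU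
    obtain ⟨θ, hθ, h3⟩ := hrec (ρ / (1 + m * C)) (by positivity)
    refine lowerDensity_pos_of hθ (.of_forall fun M => ?_)
    rw [← Nat.cast_succ]
    refine le_trans (h3 (M + 1)) (Nat.cast_le.2 (cnt_mono (fun k hk => hU ?_) 0 _))
    refine (dist_pi_le_iff hρ.le).2 fun i => ?_
    have e2 : ∀ k (η : Fin n → X), ((directSum n T)^[k] η) i = T^[k] (η i) := fun k => by
      induction k with
      | zero => exact fun _ => rfl
      | succ k ih => exact fun η => by rw [iterate_succ_apply, iterate_succ_apply, ih]; rfl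
    have e3 : J (T^[k] (η i)) - J (η i) = ((S ^ k) (y (.inl i)) - y (.inl i)) -
        ∑ j, a i j • ((S ^ k) (y (.inr j)) - y (.inr j)) := by
      rw [hs.iterate_right k, hη, ← Module.End.pow_apply]
      simp only [map_sub, map_sum, map_smul, smul_sub, Finset.sum_sub_distrib]
      abel
    have hk' : ∀ l, ‖(S ^ k) (y l) - y l‖ ≤ ρ / (1 + m * C) := fun l => by
      rw [Module.End.pow_apply, ← dist_eq_norm]
      exact hk l
    rw [e2, ← J.dist_map, dist_eq_norm, e3]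
    refine (norm_sub_le _ _).trans ((add_le_add (hk' _) (hsum i _ _ fun j => hk' _)).trans ?_)
    have h5 : 0 < ρ / (1 + m * C) := by positivity
    have h6 : ρ / (1 + m * C) * (1 + m * C) = ρ := div_mul_cancel₀ _ (by positivity)
    nlinarith [mul_le_mul_of_nonneg_left r2 (show 0 ≤ m * C * (ρ / (1 + m * C)) by positivity)]
  · have h3 := hsum i (fun j => y (.inr j)) (‖c‖ + 1) fun j => by
      have h4 : ‖y (.inr j) - c j‖ ≤ r := (dist_eq_norm _ _).symm.trans_le (hy (.inr j)).2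
      linarith [norm_le_pi_norm c j, norm_le_insert' (y (.inr j)) (c j)]
    have h4 : ‖y (.inl i) - J (x i)‖ ≤ r := (dist_eq_norm _ _).symm.trans_le (hy (.inl i)).2
    have h5 : dist (η i) (x i) ≤ r * B := by
      rw [← J.dist_map, dist_eq_norm, hη, sub_right_comm]
      refine (norm_sub_le _ _).trans ((add_le_add h4 h3).trans (le_of_eq ?_))
      rw [hB]; ring
    exact h5.trans ((le_div_iff₀ hB0).1 r3)

theorem dual_case {X : Type*} {Z : Type u} [NormedAddCommGroup X] [NormedSpace 𝕜 X]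
    [CompleteSpace X] [TopologicalSpace.SeparableSpace X] [NormedAddCommGroup Z] [NormedSpace 𝕜 Z]
    (J : X →ₗᵢ[𝕜] StrongDual 𝕜 Z) {s : Finset (StrongDual 𝕜 Z)}
    (h : ∀ y, ∃ x, y - J x ∈ Submodule.span 𝕜 (s : Set (StrongDual 𝕜 Z)))
    {T : X → X} (A : Z →L[𝕜] Z) (hs : ∀ x, J (T x) = J x ∘L A) {n : ℕ} (x : Fin n → X)
    (hx : ∀ i, ∀ r > 0, 0 < upperDensity (returnSet T (x i) (closedBall (x i) r))) {ε : ℝ}
    (hε : 0 < ε) : ∃ η ∈ recVectors (fun A => 0 < lowerDensity A) (directSum n T),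
      ∀ i, dist (η i) (x i) ≤ ε := by
  have := separable_of_fin (𝕜 := 𝕜) (Y := StrongDual 𝕜 Z) (s := s) J.continuous h
  let S : StrongDual 𝕜 Z →ₗ[𝕜] StrongDual 𝕜 Z :=
    { toFun := fun ξ => ξ ∘L A
      map_add' := fun _ _ => ContinuousLinearMap.add_comp _ _ _
      map_smul' := fun _ _ => ContinuousLinearMap.smul_comp _ _ _ }
  obtain ⟨R, h1, h2⟩ := frame.{u} A (S := S) fun _ => rfl
  exact descend (Y := StrongDual 𝕜 Z) (s := s) J h S hs h1 h2 x hx hε

theorem fin_of_map {Y₀ Y : Type*} [AddCommGroup Y₀] [Module 𝕜 Y₀] [AddCommGroup Y] [Module 𝕜 Y]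
    (L : Y₀ →ₗ[𝕜] Y) (N : Submodule 𝕜 Y) {s : Finset Y}
    (h : ∀ y, ∃ x ∈ N, y - x ∈ Submodule.span 𝕜 (s : Set Y)) :
    ∃ t : Finset Y₀, ∀ y, ∃ p ∈ Submodule.span 𝕜 (t : Set Y₀), L (y - p) ∈ N := by
  classical
  have : FiniteDimensional 𝕜 (Y ⧸ N) := by
    refine Module.finite_def.2 (Submodule.fg_def.2 ⟨N.mkQ '' s, s.finite_toSet.image _, ?_⟩)
    rw [← Submodule.map_span, Submodule.map_mkQ_eq_top, eq_top_iff]
    intro y _
    obtain ⟨x, hx, hy⟩ := h y
    rw [← add_sub_cancel x y]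
    exact Submodule.add_mem_sup hx hy
  obtain ⟨t, ht⟩ := IsNoetherian.noetherian (LinearMap.range (N.mkQ ∘ₗ L))
  have h1 : ∀ q : t, ∃ y, (N.mkQ ∘ₗ L) y = q := fun q =>
    LinearMap.mem_range.1 (ht ▸ Submodule.subset_span q.2)
  choose g hg using h1
  refine ⟨Finset.univ.image g, fun y => ?_⟩
  have h2 : (N.mkQ ∘ₗ L) y ∈
      (Submodule.span 𝕜 (Finset.univ.image g : Set Y₀)).map (N.mkQ ∘ₗ L) := by
    rw [Submodule.map_span]
    refine Submodule.span_mono (fun q hq => ?_) (ht ▸ LinearMap.mem_range_self _ y)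
    exact ⟨g ⟨q, hq⟩, by simp, hg ⟨q, hq⟩⟩
  obtain ⟨p, hp, e⟩ := h2
  refine ⟨p, hp, (Submodule.Quotient.mk_eq_zero N).1 ?_⟩
  show (N.mkQ ∘ₗ L) (y - p) = 0
  rw [map_sub, e, sub_self]

variable {X : Type u} [NormedAddCommGroup X] [NormedSpace 𝕜 X]

theorem mem_of_bidual (E : Submodule 𝕜 X) (hE : IsClosed (E : Set X))
    (ξ : StrongDual 𝕜 (StrongDual 𝕜 E)) (x : X)
    (h : ∀ φ : StrongDual 𝕜 X, ξ (φ ∘L E.subtypeL) = φ x) :
    ∃ y : E, ∀ ψ : StrongDual 𝕜 E, ξ ψ = ψ y := by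
  have hx : x ∈ E := by
    by_contra hx
    obtain ⟨g, -, hg⟩ := exists_dual_vector 𝕜 (E.mkQ x)
      (fun e => hx ((Submodule.Quotient.mk_eq_zero E).1 (by simpa using e)))
    have h1 := h (g ∘L E.mkQL)
    have h2 : (g ∘L E.mkQL) ∘L E.subtypeL = 0 := ContinuousLinearMap.ext fun y => by
      show g (E.mkQ y) = 0
      rw [show E.mkQ y = 0 from (Submodule.Quotient.mk_eq_zero E).2 y.2, map_zero]
    rw [h2, map_zero] at h1
    have h3 : (‖E.mkQ x‖ : 𝕜) = 0 := hg.symm.trans h1.symm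
    exact hx ((Submodule.Quotient.mk_eq_zero E).1 (by simpa using h3))
  refine ⟨⟨x, hx⟩, fun ψ => ?_⟩
  obtain ⟨φ, hφ, -⟩ := exists_extension_norm_eq E ψ
  rw [← hφ, ← h]
  exact congrArg ξ (ContinuousLinearMap.ext fun y => (hφ y).symm)

theorem sub_fin (E : Submodule 𝕜 X) (hE : IsClosed (E : Set X))
    {s : Finset (StrongDual 𝕜 (StrongDual 𝕜 X))} (h : ∀ ξ, ∃ x,
      ξ - NormedSpace.inclusionInDoubleDual 𝕜 X x ∈
        Submodule.span 𝕜 (s : Set (StrongDual 𝕜 (StrongDual 𝕜 X)))) :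
    ∃ t : Finset (StrongDual 𝕜 (StrongDual 𝕜 E)), ∀ ξ, ∃ x,
      ξ - NormedSpace.inclusionInDoubleDual 𝕜 E x ∈
        Submodule.span 𝕜 (t : Set (StrongDual 𝕜 (StrongDual 𝕜 E))) := by
  let A : StrongDual 𝕜 X →L[𝕜] StrongDual 𝕜 E :=
    (ContinuousLinearMap.compL 𝕜 E X 𝕜).flip E.subtypeL
  let L : StrongDual 𝕜 (StrongDual 𝕜 E) →ₗ[𝕜] StrongDual 𝕜 (StrongDual 𝕜 X) :=
    { toFun := fun ξ => ξ ∘L A
      map_add' := fun _ _ => ContinuousLinearMap.add_comp _ _ _
      map_smul' := fun _ _ => ContinuousLinearMap.smul_comp _ _ _ }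
  obtain ⟨t, ht⟩ := fin_of_map (Y₀ := StrongDual 𝕜 (StrongDual 𝕜 E))
    (Y := StrongDual 𝕜 (StrongDual 𝕜 X)) (s := s) L
    (LinearMap.range (NormedSpace.inclusionInDoubleDual 𝕜 X).toLinearMap)
    fun y => (h y).elim fun x hx => ⟨_, ⟨x, rfl⟩, hx⟩
  refine ⟨t, fun ξ => ?_⟩
  obtain ⟨p, hp, x, hx⟩ := ht ξ
  obtain ⟨y, hy⟩ := mem_of_bidual E hE (ξ - p) x fun φ =>
    (congrArg (fun η : StrongDual 𝕜 (StrongDual 𝕜 X) => η φ) hx).symm
  have e : NormedSpace.inclusionInDoubleDual 𝕜 E y = ξ - p :=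
    ContinuousLinearMap.ext fun ψ => (hy ψ).symm
  have e2 : ξ - NormedSpace.inclusionInDoubleDual 𝕜 E y = p :=
    ContinuousLinearMap.ext fun ψ => by rw [e]; simp
  exact ⟨y, e2 ▸ hp⟩

theorem quasi [CompleteSpace X] {s : Finset (StrongDual 𝕜 (StrongDual 𝕜 X))} (h : ∀ ξ, ∃ x,
      ξ - NormedSpace.inclusionInDoubleDual 𝕜 X x ∈
        Submodule.span 𝕜 (s : Set (StrongDual 𝕜 (StrongDual 𝕜 X))))
    (T : X →L[𝕜] X) (hT : UFrequentlyRecurrent T) (n : ℕ) :
    FrequentlyRecurrent (directSum n T) := by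
  refine fun ξ => Metric.mem_closure_iff.2 fun ε hε => ?_
  choose x hx hx' using fun i => hT.exists_dist_lt (ξ i) (half_pos hε)
  let O : Set X := range fun p : Fin n × ℕ => T^[p.2] (x p.1)
  let E := (Submodule.span 𝕜 O).topologicalClosure
  have hE : IsClosed (E : Set X) := Submodule.isClosed_topologicalClosure _
  have hO : ∀ y ∈ O, y ∈ E := fun y hy =>
    Submodule.le_topologicalClosure _ (Submodule.subset_span hy)
  have hinv : ∀ y ∈ E, T y ∈ E := fun y hy => by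
    refine Submodule.topologicalClosure_minimal (t := E.comap T.toLinearMap) _
      (Submodule.span_le.2 ?_) (hE.preimage T.continuous) hy
    rintro _ ⟨p, rfl⟩
    exact hO _ ⟨(p.1, p.2 + 1), iterate_succ_apply' _ _ _⟩
  have := hE.completeSpace_coe
  have : TopologicalSpace.SeparableSpace E :=
    ((countable_range _).isSeparable.span (R := 𝕜)).closure.separableSpace
  obtain ⟨t, ht⟩ := sub_fin E hE h
  let T₀ : E →L[𝕜] E := (T ∘L E.subtypeL).codRestrict E fun y => hinv y y.2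
  have hs : Semiconj ((↑) : E → X) T₀ T := fun _ => rfl
  obtain ⟨η, h1, h2⟩ := dual_case (Z := StrongDual 𝕜 E) (T := T₀)
    (NormedSpace.inclusionInDoubleDualLi 𝕜 (E := E)) ht
    ((ContinuousLinearMap.compL 𝕜 E E 𝕜).flip T₀) (fun _ => ContinuousLinearMap.ext fun _ => rfl)
    (fun i => ⟨x i, hO _ ⟨(i, 0), rfl⟩⟩) (fun i r hr => by
      convert hx i _ (closedBall_mem_nhds _ hr) using 2
      ext k
      simp only [returnSet, mem_ofPred_eq, mem_closedBall, Subtype.dist_eq, hs.iterate_right k _])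
    (half_pos hε)
  refine ⟨fun i => η i, fun U hU => ?_, (dist_pi_lt_iff hε).2 fun i => by
    linarith [dist_triangle_right (ξ i) (η i) (x i), hx' i,
      show dist (η i : X) (x i) ≤ ε / 2 from h2 i]⟩
  have hc : Continuous fun (ζ : Fin n → E) i => (ζ i : X) := by fun_prop
  have e : Semiconj (fun (ζ : Fin n → E) i => (ζ i : X)) (directSum n T₀) (directSum n T) :=
    fun _ => rfl
  convert h1 _ (hc.continuousAt.preimage_mem_nhds hU) using 2
  ext k
  simp only [returnSet, mem_ofPred_eq, mem_preimage, e.iterate_right k η]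

end Pool.Agent.P.MP_cd1425_an.Qr
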